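import Mathlib
import Pool.Agent.H200R3.Many

set_option autoImplicit false

/-!
# Twin-free union-closed families with few members have many abundant elements

For every `c < 3 + √5` and every `k`, every twin-free union-closed family on `n` points, `n` large,
with at most `c n` members has at least `k` elements lying in more than half of the members; in
particular it does not have a unique frequent element.
-/

namespace Pool.Agent.Results.MP_881a56_co.FewMembers

open Pool.Agent.H117R2

theorem result (k : ℕ) (c : ℝ) (hc : c < 3 + √5) : ∃ n0 : ℕ, ∀ A : Finset (Finset ℕ),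
    (∀ X ∈ A, ∀ Y ∈ A, X ∪ Y ∈ A) →
    (∀ x ∈ A.sup id, ∀ y ∈ A.sup id, x ≠ y → ∃ S ∈ A, ¬ (x ∈ S ↔ y ∈ S)) →
    n0 ≤ (A.sup id).card → (A.card : ℝ) ≤ c * (A.sup id).card →
    k ≤ ((A.sup id).filter (fun x => A.card < 2 * (A.filter (fun S => x ∈ S)).card)).card := by
  obtain ⟨n0, h⟩ := Pool.Agent.H200R3.Many.many k c hc
  refine ⟨n0, ?_⟩
  intro A hU hsep hn hm
  have hcard : (types A).card = (A.sup id).card := by
    unfold types
    apply Finset.card_image_of_injOn
    intro x hx y hy hxy
    by_contra hne
    obtain ⟨S, hS, h⟩ := hsep x hx y hy hne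
    have hxy' : A.filter (fun S => x ∈ S) = A.filter (fun S => y ∈ S) := hxy
    apply h
    have h1 : S ∈ A.filter (fun S => x ∈ S) ↔ S ∈ A.filter (fun S => y ∈ S) := by rw [hxy']
    simpa [hS] using h1
  exact h A hU (by rw [hcard]; exact hn) (by rw [hcard]; exact hm)

end Pool.Agent.Results.MP_881a56_co.FewMembers
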